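import Pool.Agent.Helper96.VF.Goals

/-!
Project VF (MP_6829b3_nt), packet UNQ: uniqueness of `x = 2^a 3^b m`, `(m,6) = 1`.
-/

set_option autoImplicit false

namespace Pool.Agent.Helper57.VF

open Pool.Agent.Helper96.VF

theorem val2 (a b m : ℕ) (hm : Nat.Coprime m 6) :
    (2 ^ a * 3 ^ b * m).factorization 2 = a := by
  have h0 : m ≠ 0 := by
    rintro rfl
    norm_num at hm
  have h2 : ¬ 2 ∣ m := fun h => by
    have h1 : 2 ∣ Nat.gcd m 6 := Nat.dvd_gcd h (by norm_num)
    rw [hm] at h1
    norm_num at h1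
  rw [Nat.factorization_mul (by positivity) h0, Nat.factorization_mul (by positivity)
    (by positivity), Finsupp.add_apply, Finsupp.add_apply,
    Nat.factorization_eq_zero_of_not_dvd h2, Nat.factorization_pow, Nat.factorization_pow,
    Finsupp.smul_apply, Finsupp.smul_apply,
    Nat.factorization_eq_zero_of_not_dvd (show ¬ 2 ∣ 3 by norm_num),
    Nat.Prime.factorization_self Nat.prime_two]
  simp

theorem val3 (a b m : ℕ) (hm : Nat.Coprime m 6) :
    (2 ^ a * 3 ^ b * m).factorization 3 = b := by
  have h0 : m ≠ 0 := by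
    rintro rfl
    norm_num at hm
  have h2 : ¬ 3 ∣ m := fun h => by
    have h1 : 3 ∣ Nat.gcd m 6 := Nat.dvd_gcd h (by norm_num)
    rw [hm] at h1
    norm_num at h1
  rw [Nat.factorization_mul (by positivity) h0, Nat.factorization_mul (by positivity)
    (by positivity), Finsupp.add_apply, Finsupp.add_apply,
    Nat.factorization_eq_zero_of_not_dvd h2, Nat.factorization_pow, Nat.factorization_pow,
    Finsupp.smul_apply, Finsupp.smul_apply,
    Nat.factorization_eq_zero_of_not_dvd (show ¬ 3 ∣ 2 by norm_num),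
    Nat.Prime.factorization_self Nat.prime_three]
  simp

theorem gUNQ : UNQ := by
  intro a b m a' b' m' hm hm' h
  have ha : a = a' := by
    rw [← val2 a b m hm, h, val2 a' b' m' hm']
  have hb : b = b' := by
    rw [← val3 a b m hm, h, val3 a' b' m' hm']
  subst ha hb
  exact ⟨rfl, rfl, Nat.eq_of_mul_eq_mul_left (by positivity) h⟩

end Pool.Agent.Helper57.VF
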